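import Pool.Agent.W2helper35.LC.Grp

set_option autoImplicit false
set_option linter.unusedSectionVars false

/-!
Groups of band operators with coefficients in a finite abelian group.
-/

namespace Pool.Agent.W2helper35.LC

open scoped Pointwise

universe u v w z u'

/-- The additive map `t` maps a function supported at `x` to a function supported in `T x`, for some
finite subset `T` of `Λ`. -/
def Band (Λ : Type u) [Group Λ] {X : Type v} [MulAction Λ X] {F : Type w} [AddCommGroup F]
    (t : (X →₀ F) → (X →₀ F)) : Prop :=
  ∃ T : Set Λ, T.Finite ∧ ∀ (x : X) (a : F) (y : X), t (Finsupp.single x a) y ≠ 0 →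
    ∃ l ∈ T, y = l • x

section

variable {Γ : Type u} [Group Γ] {V : Type v} [AddCommGroup V]

/-- the automorphism of a group given by an action on an additive group -/
def mulAut (φ : Γ →* AddMonoid.End V) : Γ →* MulAut (Multiplicative V) where
  toFun g :=
    { toFun := fun v => Multiplicative.ofAdd (φ g v.toAdd)
      invFun := fun v => Multiplicative.ofAdd (φ g⁻¹ v.toAdd)
      left_inv := fun v => by
        show Multiplicative.ofAdd ((φ g⁻¹ * φ g) v.toAdd) = v
        rw [← map_mul, inv_mul_cancel, map_one]
        rfl
      right_inv := fun v => by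
        show Multiplicative.ofAdd ((φ g * φ g⁻¹) v.toAdd) = v
        rw [← map_mul, mul_inv_cancel, map_one]
        rfl
      map_mul' := fun v w => by
        show Multiplicative.ofAdd (φ g (v.toAdd + w.toAdd)) = _
        rw [map_add]
        rfl }
  map_one' := by
    ext v
    show Multiplicative.ofAdd (φ 1 v.toAdd) = v
    rw [map_one]
    rfl
  map_mul' g h := by
    ext v
    show Multiplicative.ofAdd (φ (g * h) v.toAdd) = Multiplicative.ofAdd (φ g (φ h v.toAdd))
    rw [map_mul]
    rfl

end

theorem slow_of_band {Λ : Type u} [Group Λ] (hΛ : SubexpGroup Λ) {X : Type v} [MulAction Λ X]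
    {F : Type v} [AddCommGroup F] [Finite F] {H : Type w} [Group H]
    (φ : H →* AddMonoid.End (X →₀ F)) (hb : ∀ h : H, Band Λ (φ h)) (c : H)
    (hc : ∀ q : ℕ, 1 ≤ q → φ (c ^ q) ≠ 1) : Slow.{w, v} H c := by
  classical
  refine ⟨Multiplicative (X →₀ F), inferInstance, mulAut φ, X × F,
    fun p => Multiplicative.ofAdd (Finsupp.single p.1 p.2), ?_, ?_⟩
  · intro q hq
    by_contra hcon
    push Not at hcon
    apply hc q hq
    have h0 : (φ (c ^ q) : (X →₀ F) →+ (X →₀ F)) = AddMonoidHom.id (X →₀ F) := by
      apply Finsupp.addHom_ext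
      intro x a
      exact hcon (x, a)
    exact h0
  · intro S hS
    choose T hT hTx using hb
    set U : Set Λ := ⋃ s ∈ S, T s with hU
    have hUfin : U.Finite := hS.biUnion fun s _ => hT s
    -- supports
    have hsupp : ∀ s ∈ S, ∀ (v : X →₀ F) (y : X), φ s v y ≠ 0 → ∃ x, v x ≠ 0 ∧ ∃ l ∈ U, y = l • x := by
      intro s hs v y hy
      by_contra hcon
      push Not at hcon
      apply hy
      have h1 : φ s v = v.sum fun x a => φ s (Finsupp.single x a) := by
        conv_lhs => rw [← Finsupp.sum_single v]
        rw [Finsupp.sum, map_sum]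
        rfl
      rw [h1, Finsupp.sum, Finsupp.finsetSum_apply]
      apply Finset.sum_eq_zero
      intro x hx
      by_contra hne
      obtain ⟨l, hl, hlx⟩ := hTx s x (v x) y hne
      exact hcon x (Finsupp.mem_support_iff.1 hx) l (Set.mem_biUnion hs hl) hlx
    have key : ∀ n : ℕ, ∀ g ∈ S ^ n, ∀ (x : X) (a : F) (y : X),
        φ g (Finsupp.single x a) y ≠ 0 → ∃ l ∈ U ^ n, y = l • x := by
      intro n
      induction n with
      | zero =>
        intro g hg x a y hy
        rw [pow_zero] at hg
        rw [Set.mem_one.1 hg, map_one] at hy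
        refine ⟨1, by simp, ?_⟩
        rw [one_smul]
        by_contra hne
        apply hy
        show Finsupp.single x a y = 0
        exact Finsupp.single_eq_of_ne hne
      | succ n ih =>
        intro g hg x a y hy
        rw [pow_succ'] at hg
        obtain ⟨s, hs, g', hg', rfl⟩ := hg
        have h1 : φ (s * g') (Finsupp.single x a) = φ s (φ g' (Finsupp.single x a)) := by
          rw [map_mul]; rfl
        have hy' : φ s (φ g' (Finsupp.single x a)) y ≠ 0 := by
          rw [← h1]; exact hy
        obtain ⟨x', hx', l, hl, hy2⟩ := hsupp s hs _ y hy'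
        obtain ⟨l', hl', hx2⟩ := ih g' hg' x a x' hx'
        refine ⟨l * l', ?_, ?_⟩
        · rw [pow_succ']
          exact Set.mul_mem_mul hl hl'
        · rw [hy2, hx2, mul_smul]
    obtain ⟨e, he⟩ : ∃ e : ℕ, Nat.card F ≤ 2 ^ e := ⟨Nat.card F, Nat.lt_two_pow_self.le⟩
    refine ⟨fun n => e * (U ^ n).ncard, ?_, ?_⟩
    · refine (hΛ U hUfin).pow e (Nat.cast_nonneg _) 1 fun n => ?_
      push_cast
      rw [pow_one]
      exact mul_le_mul_of_nonneg_left (by linarith) (Nat.cast_nonneg _)
    · intro n p
      set E : Set X := (fun l : Λ => l • p.1) '' (U ^ n) with hE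
      have hEfin : E.Finite := (finite_pow hUfin n).image _
      have hEcard : E.ncard ≤ (U ^ n).ncard := Set.ncard_image_le (finite_pow hUfin n)
      let K : Subgroup (Multiplicative (X →₀ F)) :=
        { carrier := {v | ∀ y, y ∉ E → v.toAdd y = 0}
          mul_mem' := by
            intro v w hv hw y hy
            show (v.toAdd + w.toAdd) y = 0
            rw [Finsupp.add_apply, hv y hy, hw y hy, add_zero]
          one_mem' := fun y _ => rfl
          inv_mem' := by
            intro v hv y hy
            show (-v.toAdd) y = 0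
            rw [Finsupp.neg_apply, hv y hy, neg_zero] }
      have hK : Subgroup.closure {y | ∃ g ∈ S ^ n, y = mulAut φ g
          (Multiplicative.ofAdd (Finsupp.single p.1 p.2))} ≤ K := by
        rw [Subgroup.closure_le]
        rintro _ ⟨g, hg, rfl⟩ y hy
        by_contra hne
        obtain ⟨l, hl, hly⟩ := key n g hg p.1 p.2 y hne
        exact hy ⟨l, hl, hly.symm⟩
      haveI : Finite E := hEfin
      have hinj : Function.Injective (fun (v : K) (y : E) => v.1.toAdd y) := by
        intro v w h
        apply Subtype.ext
        apply Multiplicative.toAdd.injective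
        ext y
        by_cases hy : y ∈ E
        · exact congrFun h ⟨y, hy⟩
        · rw [v.2 y hy, w.2 y hy]
      have hKfin : Finite K := Finite.of_injective _ hinj
      have hKfin' : (K : Set (Multiplicative (X →₀ F))).Finite := hKfin
      refine ⟨hKfin'.subset hK, (Set.ncard_le_ncard hK hKfin').trans ?_⟩
      have h2 : (K : Set (Multiplicative (X →₀ F))).ncard = Nat.card K := rfl
      rw [h2]
      refine (Nat.card_le_card_of_injective _ hinj).trans ?_
      rw [Nat.card_fun]
      have h3 : Nat.card E = E.ncard := rfl
      rw [h3]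
      calc Nat.card F ^ E.ncard ≤ (2 ^ e) ^ E.ncard := Nat.pow_le_pow_left he _
        _ = 2 ^ (e * E.ncard) := by rw [pow_mul]
        _ ≤ 2 ^ (e * (U ^ n).ncard) :=
            Nat.pow_le_pow_right (by norm_num) (Nat.mul_le_mul_left e hEcard)

end Pool.Agent.W2helper35.LC
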