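import Pool.Agent.W2helper35.LC.Fam

set_option autoImplicit false
set_option linter.unusedSectionVars false

/-!
Contracting groups of transformations of the space of sequences.
-/

namespace Pool.Agent.W2helper35.LC

open scoped Pointwise

universe u v w z u'

/-- the sequence `y` preceded by the word `w` -/
def pre {A : Type v} : List A → (ℕ → A) → (ℕ → A)
  | [], y => y
  | a :: w, y => fun n => Nat.casesOn n a (pre w y)

/-- `g` maps the sequences `w y` to `w' (h • y)`, for some word `w'` of the same length as `w`. -/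
def HasSection {A : Type v} {H : Type u} [Group H] [MulAction H (ℕ → A)] (g : H) (w : List A)
    (h : H) : Prop :=
  ∃ w' : List A, w'.length = w.length ∧ ∀ y : ℕ → A, g • pre w y = pre w' (h • y)

/-- There is a finite set which contains all sections of `g` at long words, for all `g`. -/
def Contracting (A : Type v) (H : Type u) [Group H] [MulAction H (ℕ → A)] : Prop :=
  ∃ N : Set H, N.Finite ∧ ∀ g : H, ∃ k₀ : ℕ, ∀ w : List A, k₀ ≤ w.length →
    ∃ h ∈ N, HasSection g w h

section

variable {A : Type v}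

lemma pre_append (u v : List A) (y : ℕ → A) : pre (u ++ v) y = pre u (pre v y) := by
  induction u with
  | nil => rfl
  | cons a u ih =>
    funext n
    cases n with
    | zero => rfl
    | succ n =>
      show pre (u ++ v) y n = pre u (pre v y) n
      rw [ih]

lemma pre_lt (w : List A) (y z : ℕ → A) (i : ℕ) (hi : i < w.length) : pre w y i = pre w z i := by
  induction w generalizing i with
  | nil => exact absurd hi (by simp)
  | cons a w ih =>
    cases i with
    | zero => rfl
    | succ i =>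
      show pre w y i = pre w z i
      exact ih i (by simpa using hi)

lemma pre_add (w : List A) (y : ℕ → A) (i : ℕ) : pre w y (w.length + i) = y i := by
  induction w with
  | nil => simp [pre]
  | cons a w ih =>
    rw [List.length_cons, show w.length + 1 + i = (w.length + i) + 1 by omega]
    exact ih

lemma pre_ofFn (k : ℕ) (y : ℕ → A) :
    pre (List.ofFn fun i : Fin k => y i) (fun n => y (k + n)) = y := by
  induction k generalizing y with
  | zero => simp [pre]
  | succ k ih =>
    funext n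
    rw [List.ofFn_succ]
    cases n with
    | zero => rfl
    | succ n =>
      show pre (List.ofFn fun i : Fin k => y i.succ) (fun n => y (k + 1 + n)) n = y (n + 1)
      have h := congrFun (ih fun n => y (n + 1)) n
      refine Eq.trans ?_ h
      have h1 : (fun n => y (k + 1 + n)) = fun n => y (k + n + 1) := by
        funext n
        rw [show k + 1 + n = k + n + 1 by omega]
      rw [h1]
      rfl

variable {H : Type u} [Group H] [MulAction H (ℕ → A)]

lemma HasSection.mul' {N : Set H} {g₁ g₂ : H} {w : List A} {h₂ : H} (hg₂ : HasSection g₂ w h₂)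
    (hg₁ : ∀ w' : List A, w'.length = w.length → ∃ h ∈ N, HasSection g₁ w' h) :
    ∃ h₁ ∈ N, HasSection (g₁ * g₂) w (h₁ * h₂) := by
  obtain ⟨w', hw', hy⟩ := hg₂
  obtain ⟨h₁, hN, ⟨w'', hw'', hy'⟩⟩ := hg₁ w' hw'
  refine ⟨h₁, hN, w'', hw''.trans hw', fun y => ?_⟩
  rw [mul_smul, hy, hy', mul_smul]

lemma HasSection.trans {g h h' : H} {u v : List A} (h1 : HasSection g u h)
    (h2 : HasSection h v h') : HasSection g (u ++ v) h' := by
  obtain ⟨u', hu', hy⟩ := h1
  obtain ⟨v', hv', hy'⟩ := h2
  refine ⟨u' ++ v', by rw [List.length_append, List.length_append, hu', hv'], fun y => ?_⟩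
  rw [pre_append, hy, hy', pre_append]

/-- sections of long products -/
theorem sections (hc : Contracting A H) (S : Set H) (hS : S.Finite) :
    ∃ (N : Set H) (k : ℕ), N.Finite ∧ S ⊆ N ∧ (1 : H) ∈ N ∧
      ∀ (j : ℕ) (g : H), g ∈ N ^ 2 ^ j → ∀ w : List A, w.length = j * k →
        ∃ h ∈ N, HasSection g w h := by
  classical
  obtain ⟨N₀, hN₀, hcon⟩ := hc
  choose k₀ hk₀ using hcon
  set N : Set H := insert 1 (S ∪ N₀) with hN
  have hNfin : N.Finite := (hS.union hN₀).insert 1
  have hNN : (N * N).Finite := hNfin.mul hNfin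
  obtain ⟨k, hk⟩ : ∃ k, ∀ g ∈ N * N, k₀ g ≤ k := by
    obtain ⟨k, hk⟩ := (hNN.image k₀).bddAbove
    exact ⟨k, fun g hg => hk ⟨g, hg, rfl⟩⟩
  refine ⟨N, k, hNfin, fun s hs => Set.mem_insert_of_mem _ (Or.inl hs), Set.mem_insert _ _, ?_⟩
  intro j
  induction j with
  | zero =>
    intro g hg w hw
    rw [pow_zero, pow_one] at hg
    have : w = [] := List.length_eq_zero_iff.1 (by simpa using hw)
    subst this
    exact ⟨g, hg, [], rfl, fun y => rfl⟩
  | succ j ih =>
    intro g hg w hw
    rw [pow_succ, pow_mul, pow_two] at hg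
    obtain ⟨g₁, hg₁, g₂, hg₂, rfl⟩ := hg
    have hw' : w = w.take (j * k) ++ w.drop (j * k) := (List.take_append_drop _ _).symm
    have hl1 : (w.take (j * k)).length = j * k := by
      rw [List.length_take, hw]
      exact min_eq_left (Nat.mul_le_mul_right k (Nat.le_succ j))
    have hl2 : (w.drop (j * k)).length = k := by
      rw [List.length_drop, hw, Nat.succ_mul]
      omega
    obtain ⟨h₂, hh₂, hs₂⟩ := ih g₂ hg₂ _ hl1
    obtain ⟨h₁, hh₁, hs₁⟩ := hs₂.mul' (N := N) (g₁ := g₁) fun w' hw'' => ih g₁ hg₁ w' (by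
      rw [hw'', hl1])
    obtain ⟨h, hh, hs⟩ := hk₀ (h₁ * h₂) (w.drop (j * k)) (by
      rw [hl2]; exact hk _ (Set.mul_mem_mul hh₁ hh₂))
    refine ⟨h, Set.mem_insert_of_mem _ (Or.inr hh), ?_⟩
    rw [hw']
    exact hs₁.trans hs

lemma subexp_clog (a k d : ℕ) (ha : 1 ≤ a) : Subexp fun n => a ^ (Nat.clog 2 n * k) * a ^ d := by
  intro ε hε n₀
  -- compare with a polynomial along powers of two
  obtain ⟨e, he⟩ : ∃ e : ℕ, a ≤ 2 ^ e := ⟨a, Nat.lt_two_pow_self.le⟩
  have h1 := (isLittleO_pow_exp_pos_mul_atTop (k := e * k) hε).bound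
    (show (0 : ℝ) < 1 / (a : ℝ) ^ d by positivity)
  obtain ⟨x, hx⟩ := Filter.eventually_atTop.1 h1
  obtain ⟨n₁, hn₁⟩ := exists_nat_ge x
  set j := max n₀ n₁ with hj
  have hj0 : n₀ ≤ 2 ^ j := le_trans (le_max_left _ _) Nat.lt_two_pow_self.le
  have hj1 : x ≤ ((2 : ℝ) ^ j) := by
    refine hn₁.trans ?_
    have : n₁ ≤ 2 ^ j := le_trans (le_max_right _ _) Nat.lt_two_pow_self.le
    exact_mod_cast this
  refine ⟨2 ^ j, hj0, ?_⟩
  have h2 := hx _ hj1
  rw [Real.norm_of_nonneg (by positivity), Real.norm_of_nonneg (by positivity)] at h2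
  have h3 : Nat.clog 2 (2 ^ j) = j := Nat.clog_pow 2 j (by norm_num)
  simp only [h3]
  push_cast
  have hapos : (0 : ℝ) < (a : ℝ) ^ d := by positivity
  have h4 : ((a : ℝ) ^ (j * k)) ≤ ((2 : ℝ) ^ j) ^ (e * k) := by
    calc ((a : ℝ) ^ (j * k)) ≤ ((2 : ℝ) ^ e) ^ (j * k) :=
          pow_le_pow_left₀ (by positivity) (by exact_mod_cast he) _
      _ = ((2 : ℝ) ^ j) ^ (e * k) := by
          rw [← pow_mul, ← pow_mul]
          congr 1
          ring
  calc (a : ℝ) ^ (j * k) * (a : ℝ) ^ d ≤ ((2 : ℝ) ^ j) ^ (e * k) * (a : ℝ) ^ d :=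
        mul_le_mul_of_nonneg_right h4 hapos.le
    _ ≤ (1 / (a : ℝ) ^ d * Real.exp (ε * 2 ^ j)) * (a : ℝ) ^ d :=
        mul_le_mul_of_nonneg_right h2 hapos.le
    _ = Real.exp (ε * 2 ^ j) := by field_simp

theorem slow_of_contracting [Finite A] (hcon : Contracting A H) (c : H)
    (hc : ∀ q : ℕ, 1 ≤ q → ∃ x : ℕ → A, c ^ q • x ≠ x) : SlowPat.{u, v} H c := by
  classical
  refine ⟨ℕ → A, inferInstance, ULift.{v} ℕ, A, fun i y => y i.down, ?_, ?_⟩
  · intro q hq
    obtain ⟨x, hx⟩ := hc q hq
    by_contra hne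
    push Not at hne
    exact hx (funext fun i => hne ⟨i⟩ x)
  · intro S hS
    obtain ⟨N, k, hN, hSN, h1N, hsec⟩ := sections hcon S hS
    have hA : 1 ≤ Nat.card A := by
      obtain ⟨x, -⟩ := hc 1 le_rfl
      haveI : Nonempty A := ⟨x 0⟩
      exact Nat.card_pos
    refine ⟨_, subexp_clog (Nat.card A) k (Nat.card N) hA, fun n i => ?_⟩
    obtain ⟨i⟩ := i
    set j := Nat.clog 2 n with hj
    have hnj : n ≤ 2 ^ j := Nat.le_pow_clog (by norm_num) n
    have hSn : S ^ n ⊆ N ^ 2 ^ j :=
      (Set.pow_subset_pow_left hSN).trans (Set.pow_subset_pow_right h1N hnj)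
    haveI : Finite N := hN
    have h3 := determined_fin (α := (Fin (j * k) → A) × (N → A)) (β := (S ^ n : Set H) → A)
      (Set.univ : Set (ℕ → A))
      (fun y => (fun t : Fin (j * k) => y t,
        fun h : N => ((h : H) • (fun t => y (j * k + t))) (i - j * k)))
      (fun (y : ℕ → A) (g : (S ^ n : Set H)) => ((g : H) • y) i)
      (by
        intro x _ y _ hxy
        rw [Prod.ext_iff] at hxy
        obtain ⟨hw, hs⟩ := hxy
        funext g
        show ((g : H) • x) i = ((g : H) • y) i
        have hofn : (List.ofFn fun t : Fin (j * k) => x t) =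
            List.ofFn fun t : Fin (j * k) => y t := by
          congr 1
        obtain ⟨h, hh, w', hw', hact⟩ := hsec j g (hSn g.2)
          (List.ofFn fun t : Fin (j * k) => x t) (by simp)
        have hlen : w'.length = j * k := by rw [hw']; simp
        have hx1 : (g : H) • x = pre w' (h • fun t => x (j * k + t)) := by
          rw [← hact, pre_ofFn]
        have hy1 : (g : H) • y = pre w' (h • fun t => y (j * k + t)) := by
          rw [← hact, hofn, pre_ofFn]
        rw [hx1, hy1]
        rcases Nat.lt_or_ge i (j * k) with hlt | hge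
        · exact pre_lt _ _ _ i (by rw [hlen]; exact hlt)
        · have h5 := congrFun hs ⟨h, hh⟩
          obtain ⟨d, rfl⟩ := Nat.exists_eq_add_of_le hge
          rw [← hlen, pre_add, pre_add]
          rw [hlen]
          simpa using h5)
    refine ⟨h3.1, h3.2.trans (le_of_eq ?_)⟩
    rw [Nat.card_prod, Nat.card_fun, Nat.card_fun, Nat.card_fin]

end

end Pool.Agent.W2helper35.LC
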