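import Mathlib

set_option autoImplicit false
set_option linter.unusedSectionVars false

/-!
Patterns of functions along orbits; elements which are conjugate to proper powers act periodically on
sequences of low complexity.
-/

namespace Pool.Agent.W2helper35.LC

open scoped Pointwise

universe u v w z

/-- the patterns of the function `f` along `F`, at the points of `Y₀` -/
def Pat {H : Type u} [Group H] {Y : Type v} [MulAction H Y] {A : Type w} (f : Y → A) (Y₀ : Set Y)
    (F : Set H) : Set (F → A) :=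
  (fun (y : Y) (g : F) => f ((g : H) • y)) '' Y₀

/-- `liminf (log b(n)) / n = 0` -/
def Subexp (b : ℕ → ℕ) : Prop :=
  ∀ ε : ℝ, 0 < ε → ∀ n₀ : ℕ, ∃ n : ℕ, n₀ ≤ n ∧ (b n : ℝ) ≤ Real.exp (ε * n)

section period

variable {Y : Type v} {A : Type w}

/-- words of length `n` -/
def wd (c : Y ≃ Y) (f : Y → A) (n : ℕ) (y : Y) : Fin n → A := fun k => f ((c ^ (k : ℕ)) y)

/-- A sequence of functions which has at most `N` words of length `N` is periodic. -/
theorem period (c : Y ≃ Y) (Y₀ : Set Y) (hY : ∀ y, c y ∈ Y₀ ↔ y ∈ Y₀) (f : Y → A) (N : ℕ)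
    (hfin : (wd c f N '' Y₀).Finite) (hN : (wd c f N '' Y₀).ncard < N) :
    ∀ y ∈ Y₀, f ((c ^ N.factorial) y) = f y := by
  classical
  -- restriction
  have hres : ∀ n, wd c f n '' Y₀ =
      (fun (s : Fin (n + 1) → A) (k : Fin n) => s k.castSucc) '' (wd c f (n + 1) '' Y₀) := by
    intro n
    rw [Set.image_image]
    rfl
  have hfin' : ∀ d n, n + d = N → (wd c f n '' Y₀).Finite := by
    intro d
    induction d with
    | zero => intro n hn; rw [add_zero] at hn; rw [hn]; exact hfin
    | succ d ih =>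
      intro n hn
      rw [hres]
      exact (ih (n + 1) (by omega)).image _
  have hex : ∃ n, n < N ∧ Set.InjOn (fun (s : Fin (n + 1) → A) (k : Fin n) => s k.castSucc)
      (wd c f (n + 1) '' Y₀) := by
    by_contra hcon
    push Not at hcon
    have h1 : ∀ n, n ≤ N → n ≤ (wd c f n '' Y₀).ncard := by
      intro n
      induction n with
      | zero => intro _; exact Nat.zero_le _
      | succ n ih =>
        intro hn
        have h2 := ih (by omega)
        have h3 := hcon n (by omega)
        have hf := hfin' (N - (n + 1)) (n + 1) (by omega)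
        have h4 : (wd c f n '' Y₀).ncard ≤ (wd c f (n + 1) '' Y₀).ncard := by
          rw [hres n]; exact Set.ncard_image_le hf
        have h5 : (wd c f n '' Y₀).ncard ≠ (wd c f (n + 1) '' Y₀).ncard := by
          intro h6
          apply h3
          rw [hres n] at h6
          exact (Set.ncard_image_iff hf).1 h6
        omega
    exact absurd (h1 N le_rfl) (by omega)
  obtain ⟨n, hn, hinj⟩ := hex
  -- forward determinism
  have hdet : ∀ y ∈ Y₀, ∀ z ∈ Y₀, wd c f n y = wd c f n z → wd c f (n + 1) y = wd c f (n + 1) z := by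
    intro y hy z hz h
    exact hinj ⟨y, hy, rfl⟩ ⟨z, hz, rfl⟩ h
  have hstep : ∀ y ∈ Y₀, ∀ z ∈ Y₀, wd c f n y = wd c f n z → wd c f n (c y) = wd c f n (c z) := by
    intro y hy z hz h
    have h1 := hdet y hy z hz h
    funext k
    have h2 := congrFun h1 k.succ
    simpa [wd, pow_succ] using h2
  have hmem : ∀ (j : ℕ) (y : Y), y ∈ Y₀ → (c ^ j) y ∈ Y₀ := by
    intro j
    induction j with
    | zero => intro y hy; simpa using hy
    | succ j ih =>
      intro y hy
      rw [pow_succ']
      exact (hY _).2 (ih y hy)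
  have hstep' : ∀ (t : ℕ) (y z : Y), y ∈ Y₀ → z ∈ Y₀ → wd c f n y = wd c f n z →
      wd c f n ((c ^ t) y) = wd c f n ((c ^ t) z) := by
    intro t
    induction t with
    | zero => intro y z _ _ h; simpa using h
    | succ t ih =>
      intro y z hy hz h
      have h1 := ih y z hy hz h
      rw [pow_succ']
      exact hstep _ (hmem t y hy) _ (hmem t z hz) h1
  intro y hy
  -- go back
  have hinv : ∀ (j : ℕ), ((c ^ j).symm y) ∈ Y₀ := by
    intro j
    have h1 : ∀ (j : ℕ) (z : Y), (c ^ j) z ∈ Y₀ → z ∈ Y₀ := by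
      intro j
      induction j with
      | zero => intro z hz; simpa using hz
      | succ j ih =>
        intro z hz
        rw [pow_succ'] at hz
        exact ih z ((hY _).1 hz)
    apply h1 j
    rw [Equiv.apply_symm_apply]
    exact hy
  obtain ⟨y', hy'0, hyy⟩ : ∃ y' ∈ Y₀, (c ^ N) y' = y :=
    ⟨_, hinv N, Equiv.apply_symm_apply _ _⟩
  have hfn : (wd c f n '' Y₀).Finite := hfin' (N - n) n (by omega)
  have hmono : ∀ d k, k + d = N → (wd c f k '' Y₀).ncard ≤ (wd c f N '' Y₀).ncard := by
    intro d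
    induction d with
    | zero => intro k hk; rw [add_zero] at hk; rw [hk]
    | succ d ih =>
      intro k hk
      refine le_trans ?_ (ih (k + 1) (by omega))
      rw [hres k]
      exact Set.ncard_image_le (hfin' d (k + 1) (by omega))
  have hcard : (wd c f n '' Y₀).ncard < N := lt_of_le_of_lt (hmono (N - n) n (by omega)) hN
  -- pigeonhole
  obtain ⟨i, hi, j, hj, hij, heq⟩ : ∃ i ∈ Finset.range (N + 1), ∃ j ∈ Finset.range (N + 1), i ≠ j ∧
      wd c f n ((c ^ i) y') = wd c f n ((c ^ j) y') := by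
    apply Finset.exists_ne_map_eq_of_card_lt_of_maps_to (t := hfn.toFinset)
    · rw [← Set.ncard_eq_toFinset_card _ hfn, Finset.card_range]
      omega
    · intro i _
      simp only [Set.Finite.coe_toFinset]
      exact ⟨_, hmem i y' hy'0, rfl⟩
  have hper : ∃ p, 1 ≤ p ∧ p ≤ N ∧ wd c f n y = wd c f n ((c ^ p) y) := by
    rw [Finset.mem_range] at hi hj
    have key : ∀ a b : ℕ, a < b → b ≤ N → wd c f n ((c ^ a) y') = wd c f n ((c ^ b) y') →
        ∃ p, 1 ≤ p ∧ p ≤ N ∧ wd c f n y = wd c f n ((c ^ p) y) := by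
      intro a b hab hbN h
      refine ⟨b - a, by omega, by omega, ?_⟩
      have h1 := hstep' (N - a) _ _ (hmem a y' hy'0) (hmem b y' hy'0) h
      rw [← Equiv.Perm.mul_apply, ← Equiv.Perm.mul_apply, ← pow_add, ← pow_add] at h1
      rw [show N - a + a = N by omega, show N - a + b = (b - a) + N by omega, pow_add,
        Equiv.Perm.mul_apply, hyy] at h1
      exact h1
    rcases lt_or_gt_of_ne hij with h | h
    · exact key i j h (by omega) heq
    · exact key j i h (by omega) heq.symm
  obtain ⟨p, hp1, hpN, hp⟩ := hper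
  have hmul : ∀ k : ℕ, wd c f n ((c ^ (p * k)) y) = wd c f n y := by
    intro k
    induction k with
    | zero => simp
    | succ k ih =>
      rw [Nat.mul_succ, pow_add, Equiv.Perm.mul_apply]
      rw [← hstep' (p * k) _ _ hy (hmem p y hy) hp, ih]
  obtain ⟨k, hk⟩ : p ∣ N.factorial := Nat.dvd_factorial (by omega) hpN
  have h1 := hdet _ (hmem N.factorial y hy) _ hy (by rw [hk]; exact hmul k)
  have h2 := congrFun h1 0
  simpa [wd] using h2

end period

section horner

variable {H : Type u} [Group H]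

lemma pow_mono_set {S : Set H} (h1 : (1 : H) ∈ S) {a b : ℕ} (hab : a ≤ b) : S ^ a ⊆ S ^ b :=
  Set.pow_subset_pow_right h1 hab

lemma pow_mem_pow {S : Set H} {c : H} (hc : c ∈ S) (k : ℕ) : c ^ k ∈ S ^ k := Set.pow_mem_pow hc

/-- Horner's scheme -/
theorem horner {c g : H} {m : ℕ} (hm : 2 ≤ m) (hg : g * c * g⁻¹ = c ^ m) (S : Set H)
    (h1 : (1 : H) ∈ S) (hgS : g ∈ S) (hgi : g⁻¹ ∈ S) (hcS : c ∈ S) (r : ℕ) :
    ∀ k : ℕ, k < m ^ r → c ^ k ∈ S ^ (r * (m + 1)) := by
  induction r with
  | zero =>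
    intro k hk
    have : k = 0 := by simpa using hk
    subst this
    simp
  | succ r ih =>
    intro k hk
    have hq : k / m < m ^ r := by
      rw [Nat.div_lt_iff_lt_mul (by omega), ← pow_succ]
      exact hk
    have h2 : c ^ k = g * c ^ (k / m) * g⁻¹ * c ^ (k % m) := by
      have h3 : g * c ^ (k / m) * g⁻¹ = c ^ (m * (k / m)) := by
        rw [pow_mul, ← hg, conj_pow]
      rw [h3, ← pow_add, Nat.div_add_mod]
    rw [h2]
    have h4 : g * c ^ (k / m) * g⁻¹ * c ^ (k % m) ∈ S ^ (1 + r * (m + 1) + 1 + (k % m)) := by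
      rw [pow_add, pow_add, pow_add, pow_one]
      exact Set.mul_mem_mul (Set.mul_mem_mul (Set.mul_mem_mul hgS (ih _ hq)) hgi)
        (pow_mem_pow hcS _)
    refine pow_mono_set h1 ?_ h4
    have h5 : k % m < m := Nat.mod_lt _ (by omega)
    rw [Nat.succ_mul]
    omega

end horner

section main

variable {H : Type u} [Group H]

theorem periodic_of_low {c g : H} {m : ℕ} (hm : 2 ≤ m) (hg : g * c * g⁻¹ = c ^ m)
    {Y : Type v} [MulAction H Y] (Y₀ : Set Y) (hY : ∀ y, c • y ∈ Y₀ ↔ y ∈ Y₀) {I : Type z}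
    {A : Type w} (f : I → Y → A)
    (hlow : ∀ S : Set H, S.Finite → ∃ b : ℕ → ℕ, Subexp b ∧
      ∀ n i, (Pat (f i) Y₀ (S ^ n)).Finite ∧ (Pat (f i) Y₀ (S ^ n)).ncard ≤ b n) :
    ∃ q : ℕ, 1 ≤ q ∧ ∀ i, ∀ y ∈ Y₀, f i (c ^ q • y) = f i y := by
  classical
  set S : Set H := {1, g, g⁻¹, c} with hS
  have hSfin : S.Finite := by simp [hS]
  obtain ⟨b, hb, hbound⟩ := hlow S hSfin
  have hmpos : (0 : ℝ) < 2 * (m + 1) := by positivity
  obtain ⟨n, hn, hbn⟩ := hb (Real.log 2 / (2 * (m + 1))) (div_pos (Real.log_pos one_lt_two) hmpos)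
    (2 * (m + 1))
  set r := n / (m + 1) with hr
  have hr2 : 2 ≤ r := by
    rw [hr, Nat.le_div_iff_mul_le (by omega)]
    exact hn
  have hrn : r * (m + 1) ≤ n := Nat.div_mul_le_self _ _
  have hnr : n < (r + 1) * (m + 1) := by
    rw [hr]
    have h1 := Nat.lt_mul_div_succ n (show 0 < m + 1 by omega)
    rw [mul_comm]
    exact h1
  set N := m ^ r with hN
  have hbN : b n < N := by
    have h1 : (b n : ℝ) < (N : ℝ) := by
      refine lt_of_le_of_lt hbn ?_
      have h2 : Real.log 2 / (2 * (m + 1)) * n < Real.log 2 * r := by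
        have h3 : (n : ℝ) < (r + 1) * (m + 1) := by exact_mod_cast hnr
        have h4 : Real.log 2 / (2 * (m + 1)) * n <
            Real.log 2 / (2 * (m + 1)) * ((r + 1) * (m + 1)) :=
          mul_lt_mul_of_pos_left h3 (div_pos (Real.log_pos one_lt_two) hmpos)
        refine h4.trans_le ?_
        have h5 : Real.log 2 / (2 * (m + 1)) * ((r + 1) * (m + 1)) =
            Real.log 2 * ((r + 1) / 2) := by
          field_simp
        rw [h5]
        have h6 : (2 : ℝ) ≤ r := by exact_mod_cast hr2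
        have h7 : ((r : ℝ) + 1) / 2 ≤ r := by linarith
        exact mul_le_mul_of_nonneg_left h7 (Real.log_pos one_lt_two).le
      have h8 : Real.exp (Real.log 2 * r) ≤ (N : ℝ) := by
        rw [mul_comm, Real.exp_nat_mul, Real.exp_log two_pos, hN]
        push_cast
        exact pow_le_pow_left₀ (by norm_num) (by exact_mod_cast hm) r
      exact (Real.exp_lt_exp.2 h2).trans_le h8
    exact_mod_cast h1
  have hmem : ∀ k : ℕ, k < N → c ^ k ∈ S ^ n := by
    intro k hk
    have h1 : (1 : H) ∈ S := by simp [hS]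
    refine pow_mono_set h1 hrn ?_
    exact horner hm hg S h1 (by simp [hS]) (by simp [hS]) (by simp [hS]) r k hk
  refine ⟨N.factorial, Nat.factorial_pos _, ?_⟩
  intro i y hy
  let cp : Y ≃ Y := MulAction.toPerm c
  have hcp : ∀ (k : ℕ) (y : Y), (cp ^ k) y = c ^ k • y := by
    intro k y
    have h1 : cp ^ k = MulAction.toPermHom H Y (c ^ k) := by
      rw [map_pow]
      rfl
    rw [h1]
    rfl
  have himg : wd cp (f i) N '' Y₀ =
      (fun (s : (S ^ n : Set H) → A) (k : Fin N) => s ⟨c ^ (k : ℕ), hmem k k.2⟩) ''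
        (Pat (f i) Y₀ (S ^ n)) := by
    unfold Pat
    rw [Set.image_image]
    apply Set.image_congr
    intro y _
    funext k
    simp only [wd, hcp]
  have hfin := (hbound n i).1
  have h := period cp Y₀ (fun y => hY y) (f i) N
    (by rw [himg]; exact hfin.image _)
    (by
      rw [himg]
      exact lt_of_le_of_lt (Set.ncard_image_le hfin) (lt_of_le_of_lt (hbound n i).2 hbN)) y hy
  rw [hcp] at h
  exact h

end main

end Pool.Agent.W2helper35.LC
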