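import Pool.Agent.W2helper35.LC.Core

set_option autoImplicit false
set_option linter.unusedSectionVars false

/-!
Actions of low complexity: definitions and the first families.
-/

namespace Pool.Agent.W2helper35.LC

open scoped Pointwise

universe u v w z u'

/-- The number of patterns of the functions `f i` along balls grows subexponentially, uniformly in
`i`. -/
def LowComplexity (H : Type u) [Group H] {Y : Type v} [MulAction H Y] (Y₀ : Set Y) {I : Type z}
    {A : Type w} (f : I → Y → A) : Prop :=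
  ∀ S : Set H, S.Finite → ∃ b : ℕ → ℕ, Subexp b ∧
    ∀ n i, (Pat (f i) Y₀ (S ^ n)).Finite ∧ (Pat (f i) Y₀ (S ^ n)).ncard ≤ b n

/-- `H` acts on a set `Y`, with functions `f i` of low complexity such that no power of `c` preserves
all of them. -/
def SlowPat (H : Type u) [Group H] (c : H) : Prop :=
  ∃ (Y : Type v) (_ : MulAction H Y) (I : Type v) (A : Type v) (f : I → Y → A),
    (∀ q : ℕ, 1 ≤ q → ∃ i, ∃ y, f i (c ^ q • y) ≠ f i y) ∧
    LowComplexity H (Set.univ : Set Y) f

/-- if `a` determines `b` then `b` has at most as many values -/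
lemma determined {X : Type u} {α : Type v} {β : Type w} (X₀ : Set X) (a : X → α) (b : X → β)
    (h : ∀ x ∈ X₀, ∀ y ∈ X₀, a x = a y → b x = b y) (hf : (a '' X₀).Finite) :
    (b '' X₀).Finite ∧ (b '' X₀).ncard ≤ (a '' X₀).ncard := by
  classical
  rcases X₀.eq_empty_or_nonempty with h0 | ⟨x₀, hx₀⟩
  · subst h0; simp
  let φ : α → β := fun s => if h : ∃ x ∈ X₀, a x = s then b h.choose else b x₀
  have hφ : b '' X₀ = φ '' (a '' X₀) := by
    rw [Set.image_image]
    apply Set.image_congr
    intro x hx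
    have hex : ∃ x' ∈ X₀, a x' = a x := ⟨x, hx, rfl⟩
    simp only [φ, dif_pos hex]
    exact h x hx _ hex.choose_spec.1 hex.choose_spec.2.symm
  rw [hφ]
  exact ⟨hf.image _, Set.ncard_image_le hf⟩

lemma determined_fin {X : Type u} {α : Type v} [Finite α] {β : Type w} (X₀ : Set X) (a : X → α)
    (b : X → β) (h : ∀ x ∈ X₀, ∀ y ∈ X₀, a x = a y → b x = b y) :
    (b '' X₀).Finite ∧ (b '' X₀).ncard ≤ Nat.card α := by
  obtain ⟨h1, h2⟩ := determined X₀ a b h (Set.toFinite _)
  refine ⟨h1, h2.trans ?_⟩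
  rw [← Set.ncard_univ]
  exact Set.ncard_le_ncard (Set.subset_univ _) (Set.toFinite _)

lemma exp_large (C ε : ℝ) (hε : 0 < ε) : ∃ n₁ : ℕ, ∀ n : ℕ, n₁ ≤ n → C ≤ Real.exp (ε * n) := by
  obtain ⟨n₁, hn₁⟩ := exists_nat_gt (C / ε)
  refine ⟨n₁, fun n hn => ?_⟩
  have h1 : C ≤ ε * n := by
    have h2 : C / ε < n := hn₁.trans_le (by exact_mod_cast hn)
    rw [div_lt_iff₀ hε] at h2
    linarith
  have h3 := Real.add_one_le_exp (ε * n)
  linarith

lemma Subexp.pow {b b' : ℕ → ℕ} (hb : Subexp b) (C : ℝ) (hC : 0 ≤ C) (j : ℕ)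
    (h : ∀ n, (b' n : ℝ) ≤ C * (b n + 1) ^ j) : Subexp b' := by
  intro ε hε n₀
  obtain ⟨n₁, hn₁⟩ := exp_large (C * 2 ^ j) (ε / 2) (by positivity)
  have hj : (0 : ℝ) < 2 * (j + 1) := by positivity
  obtain ⟨n, hn, hbn⟩ := hb (ε / (2 * (j + 1))) (by positivity) (max n₀ n₁)
  refine ⟨n, le_trans (le_max_left _ _) hn, (h n).trans ?_⟩
  have h1 : (b n : ℝ) + 1 ≤ 2 * Real.exp (ε / (2 * (j + 1)) * n) := by
    have : (1 : ℝ) ≤ Real.exp (ε / (2 * (j + 1)) * n) := Real.one_le_exp (by positivity)
    linarith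
  have h2 : ((b n : ℝ) + 1) ^ j ≤ 2 ^ j * Real.exp (ε / 2 * n) := by
    calc ((b n : ℝ) + 1) ^ j ≤ (2 * Real.exp (ε / (2 * (j + 1)) * n)) ^ j :=
          pow_le_pow_left₀ (by positivity) h1 j
      _ = 2 ^ j * Real.exp (j * (ε / (2 * (j + 1)) * n)) := by
          rw [mul_pow, ← Real.exp_nat_mul]
      _ ≤ 2 ^ j * Real.exp (ε / 2 * n) := by
          refine mul_le_mul_of_nonneg_left (Real.exp_le_exp.2 ?_) (by positivity)
          have h3 : (j : ℝ) * (ε / (2 * (j + 1)) * n) = (j / (j + 1)) * (ε / 2 * n) := by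
            field_simp
          rw [h3]
          have h4 : (j : ℝ) / (j + 1) ≤ 1 := by
            rw [div_le_one (by positivity)]; linarith
          exact mul_le_of_le_one_left (by positivity) h4
  have h5 := hn₁ n (le_trans (le_max_right _ _) hn)
  calc C * ((b n : ℝ) + 1) ^ j ≤ C * (2 ^ j * Real.exp (ε / 2 * n)) :=
        mul_le_mul_of_nonneg_left h2 hC
    _ = (C * 2 ^ j) * Real.exp (ε / 2 * n) := by ring
    _ ≤ Real.exp (ε / 2 * n) * Real.exp (ε / 2 * n) :=
        mul_le_mul_of_nonneg_right h5 (Real.exp_pos _).le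
    _ = Real.exp (ε * n) := by rw [← Real.exp_add]; ring_nf

lemma subexp_poly (d : ℕ) : Subexp fun n => (n + 1) ^ d := by
  intro ε hε n₀
  have h1 := (isLittleO_pow_exp_pos_mul_atTop (k := d) hε).bound
    (show (0 : ℝ) < Real.exp (-ε) by positivity)
  obtain ⟨a, ha⟩ := Filter.eventually_atTop.1 h1
  obtain ⟨n₁, hn₁⟩ := exists_nat_ge a
  refine ⟨max n₀ n₁, le_max_left _ _, ?_⟩
  set n := max n₀ n₁ with hn
  have h2 := ha ((n : ℝ) + 1) (by
    have : (n₁ : ℝ) ≤ n := by exact_mod_cast le_max_right _ _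
    linarith)
  rw [Real.norm_of_nonneg (by positivity), Real.norm_of_nonneg (by positivity), ← Real.exp_add]
    at h2
  push_cast
  calc ((n : ℝ) + 1) ^ d ≤ _ := h2
    _ = Real.exp (ε * n) := by ring_nf

lemma finite_pow {Λ : Type u} [Monoid Λ] {F : Set Λ} (hF : F.Finite) (n : ℕ) : (F ^ n).Finite := by
  induction n with
  | zero => rw [pow_zero]; exact Set.finite_one
  | succ n ih => rw [pow_succ]; exact ih.mul hF

/-- all finite subsets have subexponential growth -/
def SubexpGroup (Λ : Type u) [Group Λ] : Prop :=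
  ∀ S : Set Λ, S.Finite → Subexp fun n => (S ^ n).ncard

/-- `h` moves the points by a finite set of elements of `Λ` only. -/
def Bounded (Λ : Type u) [Group Λ] {X : Type v} [MulAction Λ X] (t : X → X) : Prop :=
  ∃ F : Set Λ, F.Finite ∧ ∀ x, ∃ l ∈ F, t x = l • x

theorem bounded_pow {Λ : Type u} [Group Λ] {X : Type v} [MulAction Λ X] {H : Type w} [Group H]
    [MulAction H X] (hb : ∀ h : H, Bounded Λ (fun x : X => h • x)) (S : Set H) (hS : S.Finite) :
    ∃ F : Set Λ, F.Finite ∧ ∀ n, ∀ g ∈ S ^ n, ∀ x : X, ∃ l ∈ F ^ n, g • x = l • x := by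
  classical
  choose F hF hFx using hb
  refine ⟨⋃ s ∈ S, F s, hS.biUnion fun s _ => hF s, fun n => ?_⟩
  induction n with
  | zero =>
    intro g hg x
    rw [pow_zero] at hg
    refine ⟨1, by simp, ?_⟩
    rw [Set.mem_one.1 hg, one_smul, one_smul]
  | succ n ih =>
    intro g hg x
    rw [pow_succ] at hg
    obtain ⟨a, ha, s, hs, rfl⟩ := hg
    obtain ⟨l, hl, hlx⟩ := hFx s x
    obtain ⟨l', hl', hlx'⟩ := ih a ha (s • x)
    refine ⟨l' * l, ?_, ?_⟩
    · rw [pow_succ]
      exact Set.mul_mem_mul hl' (Set.mem_biUnion hs hl)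
    · show (a * s) • x = (l' * l) • x
      rw [mul_smul, mul_smul, hlx']
      exact congrArg _ hlx

theorem slow_of_bounded {Λ : Type u} [Group Λ] (hΛ : SubexpGroup Λ) {X : Type v} [MulAction Λ X]
    {H : Type w} [Group H] [MulAction H X] (hb : ∀ h : H, Bounded Λ (fun x : X => h • x)) (c : H)
    (hc : ∀ q : ℕ, 1 ≤ q → ∃ x : X, c ^ q • x ≠ x) : SlowPat.{w, v} H c := by
  classical
  refine ⟨X, inferInstance, X, ULift.{v} Prop, fun x y => ULift.up (y = x), ?_, ?_⟩
  · intro q hq
    obtain ⟨x, hx⟩ := hc q hq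
    refine ⟨x, x, ?_⟩
    intro h
    have h1 : (c ^ q • x = x) = (x = x) := congrArg ULift.down h
    exact hx (by rw [h1])
  · intro S hS
    obtain ⟨F, hF, hFn⟩ := bounded_pow hb S hS
    refine ⟨fun n => (F ^ n).ncard + 1, ?_, ?_⟩
    · refine (hΛ F hF).pow 1 zero_le_one 1 fun n => ?_
      push_cast
      rw [one_mul, pow_one]
    · intro n x
      have hFfin : (F ^ n).Finite := finite_pow hF n
      -- all patterns
      have hsub : Pat (fun y : X => ULift.up.{v} (y = x)) Set.univ (S ^ n) ⊆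
          insert (fun _ => ULift.up False)
            ((fun l : Λ => fun g : (S ^ n : Set H) => ULift.up ((g : H) • (l⁻¹ • x) = x)) ''
              (F ^ n)) := by
        rintro _ ⟨y, -, rfl⟩
        by_cases h : ∃ g ∈ S ^ n, g • y = x
        · obtain ⟨g, hg, hgy⟩ := h
          obtain ⟨l, hl, hly⟩ := hFn n g hg y
          refine Set.mem_insert_of_mem _ ⟨l, hl, ?_⟩
          have h1 : l⁻¹ • x = y := by rw [← hgy, hly, inv_smul_smul]
          funext g'
          simp only [h1]
        · refine Set.mem_insert_iff.2 (Or.inl ?_)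
          funext g'
          have h1 : ¬ ((g' : H) • y = x) := fun h' => h ⟨g', g'.2, h'⟩
          simp only [h1]
      have hfin := (hFfin.image (fun l : Λ => fun g : (S ^ n : Set H) =>
        ULift.up.{v} ((g : H) • (l⁻¹ • x) = x))).insert (fun _ => ULift.up False)
      refine ⟨hfin.subset hsub, ?_⟩
      refine (Set.ncard_le_ncard hsub hfin).trans ?_
      refine (Set.ncard_insert_le _ _).trans ?_
      have := Set.ncard_image_le (f := fun l : Λ => fun g : (S ^ n : Set H) =>
        ULift.up.{v} ((g : H) • (l⁻¹ • x) = x)) hFfin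
      exact Nat.add_le_add_right this 1

theorem subexp_comm (Λ : Type u) [CommGroup Λ] : SubexpGroup Λ := by
  classical
  intro S hS
  have hpoly := subexp_poly hS.toFinset.card
  intro ε hε n₀
  obtain ⟨n, hn, hbn⟩ := hpoly ε hε n₀
  refine ⟨n, hn, le_trans ?_ hbn⟩
  have key : ∀ n : ℕ, ∀ g ∈ S ^ n, ∃ a : hS.toFinset → ℕ, (∑ s, a s = n) ∧
      g = ∏ s : hS.toFinset, (s : Λ) ^ a s := by
    intro n
    induction n with
    | zero =>
      intro g hg
      refine ⟨fun _ => 0, by simp, ?_⟩
      rw [pow_zero] at hg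
      simpa using Set.mem_one.1 hg
    | succ n ih =>
      intro g hg
      rw [pow_succ] at hg
      obtain ⟨x, hx, s, hs, rfl⟩ := hg
      obtain ⟨a, ha, hxa⟩ := ih x hx
      let s' : hS.toFinset := ⟨s, by simpa using hs⟩
      refine ⟨fun t => a t + if t = s' then 1 else 0, ?_, ?_⟩
      · rw [Finset.sum_add_distrib, ha]
        simp
      · show x * s = _
        have h1 : ∏ t : hS.toFinset, (t : Λ) ^ (if t = s' then 1 else 0) = s := by
          rw [Finset.prod_eq_single s']
          · simp [s']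
          · intro t _ ht; simp [ht]
          · intro h; exact absurd (Finset.mem_univ _) h
        simp only [pow_add]
        rw [Finset.prod_mul_distrib, h1, hxa]
  have hsub : S ^ n ⊆ Set.range
      (fun a : hS.toFinset → Fin (n + 1) => ∏ s : hS.toFinset, (s : Λ) ^ (a s : ℕ)) := by
    intro g hg
    obtain ⟨a, ha, hga⟩ := key n g hg
    have hle : ∀ s, a s ≤ n := fun s => by
      rw [← ha]
      exact Finset.single_le_sum (fun _ _ => Nat.zero_le _) (Finset.mem_univ s)
    exact ⟨fun s => ⟨a s, Nat.lt_succ_of_le (hle s)⟩, hga.symm⟩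
  have h1 := Set.ncard_le_ncard hsub (Set.toFinite _)
  have h2 : (Set.range
      (fun a : hS.toFinset → Fin (n + 1) => ∏ s : hS.toFinset, (s : Λ) ^ (a s : ℕ))).ncard ≤
      (n + 1) ^ hS.toFinset.card := by
    rw [← Set.image_univ]
    refine (Set.ncard_image_le (Set.toFinite _)).trans ?_
    rw [Set.ncard_univ, Nat.card_eq_fintype_card]
    simp
  exact_mod_cast h1.trans h2

/-- The value of `f` at the translate of `t x` by `l` depends only on the values of `f` at the
translates of `x` by `F` and by `F * l`, for some finite set `F`. -/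
def QuasiLocal (Λ : Type u) [Group Λ] {X : Type v} [MulAction Λ X] {A : Type w} (f : X → A)
    (t : X → X) : Prop :=
  ∃ F : Set Λ, F.Finite ∧ ∀ (l : Λ) (x y : X),
    (∀ m ∈ F, f (m • x) = f (m • y) ∧ f ((m * l) • x) = f ((m * l) • y)) →
      f (l • t x) = f (l • t y)

/-- The function `f` separates the points of `X` together with its translates, and has subexponential
complexity. -/
def LowSystem (Λ : Type u) [Group Λ] {X : Type v} [MulAction Λ X] {A : Type w} (f : X → A) : Prop :=
  (∀ x y : X, (∀ l : Λ, f (l • x) = f (l • y)) → x = y) ∧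
  ∀ S : Set Λ, S.Finite → (∀ n, (Pat f Set.univ (S ^ n)).Finite) ∧
    Subexp fun n => (Pat f Set.univ (S ^ n)).ncard

theorem slow_of_quasiLocal {Λ : Type v} [Group Λ] {X : Type v} [MulAction Λ X] {A : Type v}
    {f : X → A} (hf : LowSystem Λ f) {H : Type w} [Group H] [MulAction H X]
    (hb : ∀ h : H, QuasiLocal Λ f (fun x : X => h • x)) (c : H)
    (hc : ∀ q : ℕ, 1 ≤ q → ∃ x : X, c ^ q • x ≠ x) : SlowPat.{w, v} H c := by
  classical
  refine ⟨X, inferInstance, Λ, A, fun l x => f (l • x), ?_, ?_⟩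
  · intro q hq
    obtain ⟨x, hx⟩ := hc q hq
    by_contra hcon
    push Not at hcon
    exact hx (hf.1 _ _ fun l => hcon l x)
  · intro S hS
    choose F hF hFx using hb
    set T : Set Λ := insert 1 (⋃ s ∈ S, F s) with hT
    have hTfin : T.Finite := (hS.biUnion fun s _ => hF s).insert 1
    have h1T : (1 : Λ) ∈ T := Set.mem_insert _ _
    have key : ∀ n : ℕ, ∀ g ∈ S ^ n, ∀ (l : Λ) (x y : X),
        (∀ m ∈ T ^ n, f (m • x) = f (m • y) ∧ f ((m * l) • x) = f ((m * l) • y)) →
          f (l • g • x) = f (l • g • y) := by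
      intro n
      induction n with
      | zero =>
        intro g hg l x y h
        rw [pow_zero] at hg
        rw [Set.mem_one.1 hg, one_smul, one_smul]
        have := (h 1 (by simp)).2
        simpa using this
      | succ n ih =>
        intro g hg l x y h
        rw [pow_succ'] at hg
        obtain ⟨s, hs, g', hg', rfl⟩ := hg
        show f (l • (s * g') • x) = f (l • (s * g') • y)
        rw [mul_smul, mul_smul]
        apply hFx s l (g' • x) (g' • y)
        intro m hm
        have hmT : m ∈ T := Set.mem_insert_of_mem _ (Set.mem_biUnion hs hm)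
        constructor
        · apply ih g' hg' m x y
          intro m' hm'
          refine ⟨(h m' (Set.pow_subset_pow_right h1T (Nat.le_succ n) hm')).1, ?_⟩
          exact (h (m' * m) (by rw [pow_succ]; exact Set.mul_mem_mul hm' hmT)).1
        · apply ih g' hg' (m * l) x y
          intro m' hm'
          refine ⟨(h m' (Set.pow_subset_pow_right h1T (Nat.le_succ n) hm')).1, ?_⟩
          have := (h (m' * m) (by rw [pow_succ]; exact Set.mul_mem_mul hm' hmT)).2
          rw [mul_assoc] at this
          exact this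
    obtain ⟨hfin, hsub⟩ := hf.2 T hTfin
    refine ⟨fun n => (Pat f Set.univ (T ^ n)).ncard ^ 2, ?_, ?_⟩
    · refine hsub.pow 1 zero_le_one 2 fun n => ?_
      push_cast
      rw [one_mul]
      exact pow_le_pow_left₀ (Nat.cast_nonneg _) (by linarith) 2
    · intro n l
      have h1 : ((fun x : X => ((fun g : (T ^ n : Set Λ) => f ((g : Λ) • x)),
          (fun g : (T ^ n : Set Λ) => f ((g : Λ) • (l • x))))) '' Set.univ) ⊆
          (Pat f Set.univ (T ^ n)) ×ˢ (Pat f Set.univ (T ^ n)) := by
        rintro _ ⟨x, -, rfl⟩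
        exact ⟨⟨x, Set.mem_univ _, rfl⟩, ⟨l • x, Set.mem_univ _, rfl⟩⟩
      have h2 := (hfin n).prod (hfin n)
      have h3 := determined (β := (S ^ n : Set H) → A) (Set.univ : Set X)
        (fun x : X => ((fun g : (T ^ n : Set Λ) => f ((g : Λ) • x)),
          (fun g : (T ^ n : Set Λ) => f ((g : Λ) • (l • x)))))
        (fun (x : X) (g : (S ^ n : Set H)) => f (l • (g : H) • x))
        (fun x _ y _ hxy => by
          funext g
          apply key n g g.2 l x y
          intro m hm
          rw [Prod.ext_iff] at hxy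
          refine ⟨congrFun hxy.1 ⟨m, hm⟩, ?_⟩
          have := congrFun hxy.2 ⟨m, hm⟩
          simpa [mul_smul] using this) (h2.subset h1)
      refine ⟨h3.1, h3.2.trans ?_⟩
      refine (Set.ncard_le_ncard h1 h2).trans ?_
      rw [Set.ncard_prod]
      exact le_of_eq (pow_two _).symm

end Pool.Agent.W2helper35.LC
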