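import Pool.Agent.W2helper35.LC.Contr

set_option autoImplicit false
set_option linter.unusedSectionVars false

/-!
Groups of automorphisms of locally finite groups, with subexponential growth of the orders of the
subgroups generated by the orbits.
-/

namespace Pool.Agent.W2helper35.LC

open scoped Pointwise

universe u v w z u'

section period

variable {V : Type v} [Group V]

/-- the subgroup generated by the first `n` points of the orbit -/
def Orb (c : MulAut V) (x : V) (n : ℕ) : Subgroup V :=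
  Subgroup.closure {y | ∃ k < n, y = (c ^ k) x}

lemma Orb_mono (c : MulAut V) (x : V) {m n : ℕ} (h : m ≤ n) : Orb c x m ≤ Orb c x n := by
  apply Subgroup.closure_mono
  rintro y ⟨k, hk, rfl⟩
  exact ⟨k, lt_of_lt_of_le hk h, rfl⟩

/-- a small subgroup generated by `N` points of an orbit -/
theorem period_grp (c : MulAut V) (x : V) (N : ℕ) (hfin : (Orb c x N : Set V).Finite)
    (hN : (Orb c x N : Set V).ncard < 2 ^ N) : (c ^ (2 ^ N).factorial) x = x := by
  classical
  have hfin' : ∀ n ≤ N, (Orb c x n : Set V).Finite := fun n hn =>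
    hfin.subset (Orb_mono c x hn)
  -- the chain stops
  have hex : ∃ n, n < N ∧ Orb c x n = Orb c x (n + 1) := by
    by_contra hcon
    push Not at hcon
    have h1 : ∀ n, n ≤ N → 2 ^ n ≤ (Orb c x n : Set V).ncard := by
      intro n
      induction n with
      | zero =>
        intro _
        rw [pow_zero]
        exact Nat.succ_le_of_lt ((Set.ncard_pos (hfin' 0 (Nat.zero_le _))).2 ⟨1, one_mem _⟩)
      | succ n ih =>
        intro hn
        have h2 := ih (by omega)
        have hle : Orb c x n ≤ Orb c x (n + 1) := Orb_mono c x (Nat.le_succ n)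
        have hne := hcon n (by omega)
        haveI : Finite (Orb c x (n + 1)) := hfin' (n + 1) hn
        haveI : Finite (Orb c x n) := hfin' n (by omega)
        have hdvd := Subgroup.card_dvd_of_le hle
        have hcard1 : (Orb c x n : Set V).ncard = Nat.card (Orb c x n) := rfl
        have hcard2 : (Orb c x (n + 1) : Set V).ncard = Nat.card (Orb c x (n + 1)) := rfl
        rw [hcard1] at h2
        rw [hcard2]
        obtain ⟨t, ht⟩ := hdvd
        have hpos : 0 < Nat.card (Orb c x (n + 1)) := Nat.card_pos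
        have ht2 : 2 ≤ t := by
          by_contra hlt
          have h01 : t = 0 ∨ t = 1 := by omega
          rcases h01 with rfl | rfl
          · omega
          · apply hne
            exact Subgroup.eq_of_le_of_card_ge hle (by omega)
        rw [ht, pow_succ]
        exact Nat.mul_le_mul h2 ht2
    exact absurd (h1 N le_rfl) (by omega)
  obtain ⟨n, hn, hstop⟩ := hex
  have hx : x ∈ Orb c x n := by
    rw [hstop]
    exact Subgroup.subset_closure ⟨0, Nat.succ_pos n, by simp⟩
  have hc : ∀ y ∈ Orb c x n, c y ∈ Orb c x n := by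
    intro y hy
    rw [hstop]
    have h1 : Orb c x n ≤ (Orb c x (n + 1)).comap (c : V ≃* V).toMonoidHom := by
      unfold Orb
      rw [Subgroup.closure_le]
      rintro y ⟨k, hk, rfl⟩
      show c ((c ^ k) x) ∈ Subgroup.closure {y | ∃ k < n + 1, y = (c ^ k) x}
      refine Subgroup.subset_closure ⟨k + 1, by omega, ?_⟩
      rw [pow_succ']
      rfl
    exact h1 hy
  have hck : ∀ k : ℕ, (c ^ k) x ∈ Orb c x n := by
    intro k
    induction k with
    | zero => simpa using hx
    | succ k ih =>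
      rw [pow_succ']
      exact hc _ ih
  have hfn := hfin' n hn.le
  have hcard : (Orb c x n : Set V).ncard < 2 ^ N :=
    lt_of_le_of_lt (Set.ncard_le_ncard (Orb_mono c x hn.le) hfin) hN
  obtain ⟨i, hi, j, hj, hij, heq⟩ : ∃ i ∈ Finset.range (2 ^ N + 1), ∃ j ∈ Finset.range (2 ^ N + 1),
      i ≠ j ∧ (c ^ i) x = (c ^ j) x := by
    apply Finset.exists_ne_map_eq_of_card_lt_of_maps_to (t := hfn.toFinset)
    · rw [← Set.ncard_eq_toFinset_card _ hfn, Finset.card_range]
      omega
    · intro i _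
      simp only [Set.Finite.coe_toFinset]
      exact hck i
  rw [Finset.mem_range] at hi hj
  have key : ∀ a b : ℕ, a < b → b ≤ 2 ^ N → (c ^ a) x = (c ^ b) x →
      (c ^ (2 ^ N).factorial) x = x := by
    intro a b hab hb h
    have h1 : (c ^ (b - a)) x = x := by
      have h2 : (c ^ a) ((c ^ (b - a)) x) = (c ^ a) x := by
        rw [← MulAut.mul_apply, ← pow_add, Nat.add_sub_cancel' hab.le, h]
      exact (c ^ a).injective h2
    obtain ⟨t, ht⟩ : b - a ∣ (2 ^ N).factorial := Nat.dvd_factorial (by omega) (by omega)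
    rw [ht, pow_mul]
    have h3 : ∀ t : ℕ, ((c ^ (b - a)) ^ t) x = x := by
      intro t
      induction t with
      | zero => simp
      | succ t ih => rw [pow_succ, MulAut.mul_apply, h1, ih]
    exact h3 t
  rcases lt_or_gt_of_ne hij with h | h
  · exact key i j h (by omega) heq
  · exact key j i h (by omega) heq.symm

end period

/-- `H` acts by automorphisms on a group `V`; the orders of the subgroups generated by the points `g x`,
`g` in a ball of radius `n` of `H`, are at most `2 ^ b(n)` with a subexponential function `b`, uniformly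
for a family of points `x` which are not all fixed by a power of `c`. -/
def Slow (H : Type u) [Group H] (c : H) : Prop :=
  ∃ (V : Type v) (_ : Group V) (φ : H →* MulAut V) (I : Type v) (x : I → V),
    (∀ q : ℕ, 1 ≤ q → ∃ i, φ (c ^ q) (x i) ≠ x i) ∧
    ∀ S : Set H, S.Finite → ∃ b : ℕ → ℕ, Subexp b ∧ ∀ n i,
      (Subgroup.closure {y | ∃ g ∈ S ^ n, y = φ g (x i)} : Set V).Finite ∧
      (Subgroup.closure {y | ∃ g ∈ S ^ n, y = φ g (x i)} : Set V).ncard ≤ 2 ^ b n

lemma large_radius {b : ℕ → ℕ} (hb : Subexp b) {m : ℕ} (hm : 2 ≤ m) :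
    ∃ n r : ℕ, r * (m + 1) ≤ n ∧ b n < m ^ r := by
  have hmpos : (0 : ℝ) < 2 * (m + 1) := by positivity
  obtain ⟨n, hn, hbn⟩ := hb (Real.log 2 / (2 * (m + 1))) (div_pos (Real.log_pos one_lt_two) hmpos)
    (2 * (m + 1))
  set r := n / (m + 1) with hr
  have hr2 : 2 ≤ r := by
    rw [hr, Nat.le_div_iff_mul_le (by omega)]
    exact hn
  have hrn : r * (m + 1) ≤ n := Nat.div_mul_le_self _ _
  have hnr : n < (r + 1) * (m + 1) := by
    rw [hr]
    have h1 := Nat.lt_mul_div_succ n (show 0 < m + 1 by omega)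
    rw [mul_comm]
    exact h1
  refine ⟨n, r, hrn, ?_⟩
  have h1 : (b n : ℝ) < ((m ^ r : ℕ) : ℝ) := by
    refine lt_of_le_of_lt hbn ?_
    have h2 : Real.log 2 / (2 * (m + 1)) * n < Real.log 2 * r := by
      have h3 : (n : ℝ) < (r + 1) * (m + 1) := by exact_mod_cast hnr
      have h4 : Real.log 2 / (2 * (m + 1)) * n <
          Real.log 2 / (2 * (m + 1)) * ((r + 1) * (m + 1)) :=
        mul_lt_mul_of_pos_left h3 (div_pos (Real.log_pos one_lt_two) hmpos)
      refine h4.trans_le ?_
      have h5 : Real.log 2 / (2 * (m + 1)) * ((r + 1) * (m + 1)) =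
          Real.log 2 * ((r + 1) / 2) := by
        field_simp
      rw [h5]
      have h6 : (2 : ℝ) ≤ r := by exact_mod_cast hr2
      have h7 : ((r : ℝ) + 1) / 2 ≤ r := by linarith
      exact mul_le_mul_of_nonneg_left h7 (Real.log_pos one_lt_two).le
    have h8 : Real.exp (Real.log 2 * r) ≤ ((m ^ r : ℕ) : ℝ) := by
      rw [mul_comm, Real.exp_nat_mul, Real.exp_log two_pos]
      push_cast
      exact pow_le_pow_left₀ (by norm_num) (by exact_mod_cast hm) r
    exact (Real.exp_lt_exp.2 h2).trans_le h8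
  exact_mod_cast h1

theorem Slow.not_conj {H : Type u} [Group H] {c : H} (hc : Slow.{u, v} H c) (m : ℕ) (hm : 2 ≤ m) :
    ¬ IsConj c (c ^ m) := by
  intro h
  obtain ⟨g, hg⟩ := isConj_iff.1 h
  obtain ⟨V, _, φ, I, x, hq, hlow⟩ := hc
  set S : Set H := {1, g, g⁻¹, c} with hS
  have hSfin : S.Finite := by simp [hS]
  obtain ⟨b, hb, hbound⟩ := hlow S hSfin
  obtain ⟨n, r, hrn, hbn⟩ := large_radius hb hm
  have hmem : ∀ k : ℕ, k < m ^ r → c ^ k ∈ S ^ n := by
    intro k hk
    have h1 : (1 : H) ∈ S := by simp [hS]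
    refine pow_mono_set h1 hrn ?_
    exact horner hm hg S h1 (by simp [hS]) (by simp [hS]) (by simp [hS]) r k hk
  obtain ⟨i, hi⟩ := hq (2 ^ m ^ r).factorial (Nat.factorial_pos _)
  apply hi
  rw [map_pow]
  obtain ⟨hfin, hcard⟩ := hbound n i
  have hsub : (Orb (φ c) (x i) (m ^ r) : Set V) ⊆
      Subgroup.closure {y | ∃ g ∈ S ^ n, y = φ g (x i)} := by
    apply Subgroup.closure_mono
    rintro y ⟨k, hk, rfl⟩
    exact ⟨c ^ k, hmem k hk, by rw [map_pow]⟩
  apply period_grp
  · exact hfin.subset hsub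
  · refine lt_of_le_of_lt (Set.ncard_le_ncard hsub hfin) (lt_of_le_of_lt hcard ?_)
    exact Nat.pow_lt_pow_right (by norm_num) hbn

theorem Slow.comap {H : Type u} [Group H] {G : Type u'} [Group G] (φ : H →* G) {c : H}
    (hc : Slow.{u', v} G (φ c)) : Slow.{u, v} H c := by
  obtain ⟨V, _, ψ, I, x, hq, hlow⟩ := hc
  refine ⟨V, _, ψ.comp φ, I, x, ?_, ?_⟩
  · intro q hq1
    obtain ⟨i, hi⟩ := hq q hq1
    refine ⟨i, ?_⟩
    rw [MonoidHom.comp_apply, map_pow]
    exact hi
  · intro S hS
    obtain ⟨b, hb, hbound⟩ := hlow (φ '' S) (hS.image _)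
    refine ⟨b, hb, fun n i => ?_⟩
    obtain ⟨h1, h2⟩ := hbound n i
    have hsub : (Subgroup.closure {y | ∃ g ∈ S ^ n, y = (ψ.comp φ) g (x i)} : Set V) ⊆
        Subgroup.closure {y | ∃ g ∈ (φ '' S) ^ n, y = ψ g (x i)} := by
      apply Subgroup.closure_mono
      rintro y ⟨g, hg, rfl⟩
      refine ⟨φ g, ?_, rfl⟩
      rw [← Set.image_pow]
      exact ⟨g, hg, rfl⟩
    exact ⟨h1.subset hsub, (Set.ncard_le_ncard hsub h1).trans h2⟩

/-- from patterns to groups of functions -/
theorem Slow.of_pat {H : Type u} [Group H] {c : H} {Y : Type v} [MulAction H Y] {I : Type v}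
    {A : Type v} (f : I → Y → A) (hq : ∀ q : ℕ, 1 ≤ q → ∃ i, ∃ y : Y, f i (c ^ q • y) ≠ f i y)
    (hlow : LowComplexity H Set.univ f) : Slow.{u, v} H c := by
  classical
  let act : MulDistribMulAction H (Y → Multiplicative (ZMod 2)) := arrowMulDistribMulAction
  let φ : H →* MulAut (Y → Multiplicative (ZMod 2)) := MulDistribMulAction.toMulAut H _
  have hφ : ∀ (g : H) (F : Y → Multiplicative (ZMod 2)) (y : Y), φ g F y = F (g⁻¹ • y) :=
    fun _ _ _ => rfl
  let x : I × A → (Y → Multiplicative (ZMod 2)) := fun p y =>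
    if f p.1 y = p.2 then Multiplicative.ofAdd (1 : ZMod 2) else 1
  have hne : (Multiplicative.ofAdd (1 : ZMod 2)) ≠ 1 := by decide
  refine ⟨Y → Multiplicative (ZMod 2), inferInstance, φ, I × A, x, ?_, ?_⟩
  · intro q hq1
    obtain ⟨i, y, hy⟩ := hq q hq1
    refine ⟨(i, f i y), ?_⟩
    intro h
    have h1 := congrFun h (c ^ q • y)
    rw [hφ, inv_smul_smul] at h1
    simp only [x, if_true] at h1
    rw [if_neg hy] at h1
    exact hne h1
  · intro S hS
    obtain ⟨b, hb, hbound⟩ := hlow S⁻¹ hS.inv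
    refine ⟨b, hb, fun n p => ?_⟩
    obtain ⟨h1, h2⟩ := hbound n p.1
    -- functions of the pattern
    haveI : Finite (Pat (f p.1) Set.univ (S⁻¹ ^ n)) := h1
    let P : Y → Pat (f p.1) Set.univ (S⁻¹ ^ n) := fun y =>
      ⟨fun g => f p.1 ((g : H) • y), ⟨y, Set.mem_univ _, rfl⟩⟩
    let K : Subgroup (Y → Multiplicative (ZMod 2)) :=
      { carrier := Set.range fun F : Pat (f p.1) Set.univ (S⁻¹ ^ n) → Multiplicative (ZMod 2) =>
          F ∘ P
        mul_mem' := by
          rintro _ _ ⟨F, rfl⟩ ⟨F', rfl⟩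
          exact ⟨F * F', rfl⟩
        one_mem' := ⟨1, rfl⟩
        inv_mem' := by
          rintro _ ⟨F, rfl⟩
          exact ⟨F⁻¹, rfl⟩ }
    have hK : Subgroup.closure {y | ∃ g ∈ S ^ n, y = φ g (x p)} ≤ K := by
      rw [Subgroup.closure_le]
      rintro _ ⟨g, hg, rfl⟩
      have hginv : g⁻¹ ∈ S⁻¹ ^ n := by
        rw [inv_pow]
        exact Set.inv_mem_inv.2 hg
      refine ⟨fun s => if s.1 ⟨g⁻¹, hginv⟩ = p.2 then Multiplicative.ofAdd (1 : ZMod 2) else 1, ?_⟩
      funext y
      rw [hφ]
      rfl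
    have hKfin : (K : Set (Y → Multiplicative (ZMod 2))).Finite := Set.finite_range _
    refine ⟨hKfin.subset hK, (Set.ncard_le_ncard hK hKfin).trans ?_⟩
    have h3 : (K : Set (Y → Multiplicative (ZMod 2))).ncard ≤
        2 ^ (Pat (f p.1) Set.univ (S⁻¹ ^ n)).ncard := by
      show (Set.range _).ncard ≤ _
      rw [← Set.image_univ]
      refine (Set.ncard_image_le (Set.toFinite _)).trans ?_
      rw [Set.ncard_univ, Nat.card_fun]
      have h4 : Nat.card (Multiplicative (ZMod 2)) = 2 := by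
        rw [Nat.card_congr Multiplicative.toAdd, Nat.card_zmod]
      rw [h4]
      exact le_rfl
    exact h3.trans (Nat.pow_le_pow_right (by norm_num) h2)

theorem SlowPat.slow {H : Type u} [Group H] {c : H} (hc : SlowPat.{u, v} H c) : Slow.{u, v} H c := by
  obtain ⟨Y, _, I, A, f, hq, hlow⟩ := hc
  exact Slow.of_pat f hq hlow

end Pool.Agent.W2helper35.LC
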