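import Pool.Agent.W2helper35.LC.Band
import Pool.Agent.W2helper35.CR.Main

set_option autoImplicit false
set_option linter.unusedSectionVars false

/-!
The Bass trace conjecture for groups with actions of low complexity.
-/

namespace Pool.Agent.W2helper35.LC

open scoped Pointwise
open Pool.Agent.H26R2.Bass (bass_of_local)
open Pool.Agent.W2helper35.CR (good_of_no_power bass_at)

universe u v w z u'

/-- The kernel of the action is a torsion group. -/
def TorsionKernel (Γ : Type u) [Group Γ] (X : Type v) [MulAction Γ X] : Prop :=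
  ∀ g : Γ, (∀ x : X, g • x = x) → IsOfFinOrder g

/-- The balls of `X` are finite and grow subexponentially, uniformly in the centre. -/
def SubexpSpace (X : Type v) [PseudoMetricSpace X] : Prop :=
  (∀ (x : X) (r : ℝ), (Metric.closedBall x r).Finite) ∧
  ∀ ε : ℝ, 0 < ε → ∃ C : ℝ, ∀ (x : X) (r : ℝ), 0 ≤ r →
    ((Metric.closedBall x r).ncard : ℝ) ≤ C * Real.exp (ε * r)

lemma TorsionKernel.pow {Γ : Type u} [Group Γ] {X : Type v} [MulAction Γ X]
    (h : TorsionKernel Γ X) {c : Γ} (hc : ¬ IsOfFinOrder c) (q : ℕ) (hq : 1 ≤ q) :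
    ∃ x : X, c ^ q • x ≠ x := by
  by_contra hcon
  push Not at hcon
  exact hc ((h _ hcon).of_pow (by omega))

/-- bounded displacement of a metric space -/
theorem slow_of_metric {X : Type v} [PseudoMetricSpace X] (hX : SubexpSpace X)
    {H : Type w} [Group H] [MulAction H X] (hb : ∀ h : H, ∃ D : ℝ, ∀ x : X, dist (h • x) x ≤ D)
    (c : H) (hc : ∀ q : ℕ, 1 ≤ q → ∃ x : X, c ^ q • x ≠ x) : SlowPat.{w, v} H c := by
  classical
  refine ⟨X, inferInstance, X, ULift.{v} Prop, fun x y => ULift.up (y = x), ?_, ?_⟩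
  · intro q hq
    obtain ⟨x, hx⟩ := hc q hq
    refine ⟨x, x, ?_⟩
    intro h
    have h1 : (c ^ q • x = x) = (x = x) := congrArg ULift.down h
    exact hx (by rw [h1])
  · intro S hS
    choose D hD using hb
    obtain ⟨E, hE⟩ := (hS.image D).bddAbove
    set E' := max E 1 with hE'
    have hE1 : 0 < E' := lt_of_lt_of_le zero_lt_one (le_max_right _ _)
    have hdis : ∀ n : ℕ, ∀ g ∈ S ^ n, ∀ x : X, dist (g • x) x ≤ n * E' := by
      intro n
      induction n with
      | zero =>
        intro g hg x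
        rw [pow_zero] at hg
        rw [Set.mem_one.1 hg, one_smul, dist_self]
        simp
      | succ n ih =>
        intro g hg x
        rw [pow_succ'] at hg
        obtain ⟨s, hs, g', hg', rfl⟩ := hg
        show dist ((s * g') • x) x ≤ _
        rw [mul_smul]
        have h1 : dist (s • g' • x) (g' • x) ≤ E' :=
          (hD s _).trans ((hE ⟨s, hs, rfl⟩).trans (le_max_left _ _))
        have h2 := ih g' hg' x
        have h3 := dist_triangle (s • g' • x) (g' • x) x
        push_cast
        linarith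
    -- the number of patterns
    have hcount : ∀ (n : ℕ) (x : X),
        (Pat (fun y : X => ULift.up.{v} (y = x)) Set.univ (S ^ n)).Finite ∧
        (Pat (fun y : X => ULift.up.{v} (y = x)) Set.univ (S ^ n)).ncard ≤
          (Metric.closedBall x (n * E')).ncard + 1 := by
      intro n x
      have hBfin : (Metric.closedBall x (n * E')).Finite := hX.1 _ _
      have hsub : Pat (fun y : X => ULift.up.{v} (y = x)) Set.univ (S ^ n) ⊆
          insert (fun _ => ULift.up False)
            ((fun y : X => fun g : (S ^ n : Set H) => ULift.up ((g : H) • y = x)) ''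
              (Metric.closedBall x (n * E'))) := by
        rintro _ ⟨y, -, rfl⟩
        by_cases h : ∃ g ∈ S ^ n, g • y = x
        · obtain ⟨g, hg, hgy⟩ := h
          refine Set.mem_insert_of_mem _ ⟨y, ?_, rfl⟩
          rw [Metric.mem_closedBall, dist_comm, ← hgy]
          exact hdis n g hg y
        · refine Set.mem_insert_iff.2 (Or.inl ?_)
          funext g'
          have h1 : ¬ ((g' : H) • y = x) := fun h' => h ⟨g', g'.2, h'⟩
          simp only [h1]
      have hfin := (hBfin.image (fun y : X => fun g : (S ^ n : Set H) =>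
        ULift.up.{v} ((g : H) • y = x))).insert (fun _ => ULift.up False)
      refine ⟨hfin.subset hsub, ?_⟩
      refine (Set.ncard_le_ncard hsub hfin).trans ?_
      refine (Set.ncard_insert_le _ _).trans ?_
      exact Nat.add_le_add_right (Set.ncard_image_le hBfin) 1
    -- the supremum
    obtain ⟨x₀⟩ : Nonempty X := by
      obtain ⟨x, -⟩ := hc 1 le_rfl
      exact ⟨x⟩
    have hbdd : ∀ n : ℕ, ∃ B : ℕ, (∀ x : X, (Metric.closedBall x (n * E')).ncard ≤ B) ∧
        ∃ x : X, B = (Metric.closedBall x (n * E')).ncard := by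
      intro n
      obtain ⟨C, hC⟩ := hX.2 1 one_pos
      obtain ⟨M, hM⟩ := exists_nat_ge (C * Real.exp (1 * (n * E')))
      have hb : BddAbove (Set.range fun x : X => (Metric.closedBall x (n * E')).ncard) := by
        refine ⟨M, ?_⟩
        rintro _ ⟨x, rfl⟩
        have := (hC x (n * E') (by positivity)).trans hM
        exact_mod_cast this
      refine ⟨sSup (Set.range fun x : X => (Metric.closedBall x (n * E')).ncard), ?_, ?_⟩
      · intro x
        exact le_csSup hb ⟨x, rfl⟩
      · obtain ⟨x, hx⟩ := Nat.sSup_mem (Set.range_nonempty_iff_nonempty.2 ⟨x₀⟩) hb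
        exact ⟨x, hx.symm⟩
    choose b hb1 hb2 using hbdd
    have hbsub : Subexp b := by
      intro ε hε n₀
      obtain ⟨C, hC⟩ := hX.2 (ε / (2 * E')) (by positivity)
      obtain ⟨n₁, hn₁⟩ := exp_large C (ε / 2) (by positivity)
      refine ⟨max n₀ n₁, le_max_left _ _, ?_⟩
      set n := max n₀ n₁ with hn
      obtain ⟨x, hx⟩ := hb2 n
      rw [hx]
      refine (hC x (n * E') (by positivity)).trans ?_
      have h1 := hn₁ n (le_max_right _ _)
      have h2 : ε / (2 * E') * (n * E') = ε / 2 * n := by field_simp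
      rw [h2]
      calc C * Real.exp (ε / 2 * n) ≤ Real.exp (ε / 2 * n) * Real.exp (ε / 2 * n) :=
            mul_le_mul_of_nonneg_right h1 (Real.exp_pos _).le
        _ = Real.exp (ε * n) := by rw [← Real.exp_add]; ring_nf
    refine ⟨fun n => b n + 1, ?_, fun n x => ?_⟩
    · refine hbsub.pow 1 zero_le_one 1 fun n => ?_
      push_cast
      rw [one_mul, pow_one]
    · obtain ⟨h1, h2⟩ := hcount n x
      exact ⟨h1, h2.trans (Nat.add_le_add_right (hb1 n x) 1)⟩

section bass

variable {R : Type z} [CommRing R] [IsDomain R]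

theorem bass_slow_at {Γ : Type u} [Group Γ] (c : Γ) (hc : Slow.{u, v} Γ c) {k : ℕ}
    (A : Matrix (Fin k) (Fin k) (MonoidAlgebra R Γ)) (hA : A * A = A) :
    ∑ i : Fin k, ∑ᶠ (h : Γ) (_ : IsConj h c), (A i i).coeff h = 0 := by
  apply bass_at c _ A hA
  intro H hcH hH
  apply good_of_no_power
  have h1 : Slow.{u, v} H (⟨c, hcH⟩ : H) := Slow.comap H.subtype hc
  exact fun m hm => h1.not_conj m hm

theorem bass_slow {Γ : Type u} [Group Γ]
    (hΓ : ∀ H : Subgroup Γ, H.FG → ∀ h : H, ¬ IsOfFinOrder h → Slow.{u, v} H h) {k : ℕ}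
    (A : Matrix (Fin k) (Fin k) (MonoidAlgebra R Γ)) (hA : A * A = A) (g : Γ)
    (hg : ¬ IsUnit ((orderOf g : ℕ) : R)) :
    ∑ i : Fin k, ∑ᶠ (h : Γ) (_ : IsConj h g), (A i i).coeff h = 0 := by
  refine bass_of_local ?_ A hA g hg
  intro H hH h hh
  have hh' : ¬ IsOfFinOrder h := fun hf => hh (isOfFinOrder_iff_pow_eq_one.1 hf)
  exact good_of_no_power h fun m hm => (hΓ H hH h hh').not_conj m hm

theorem bass_slow' {Γ : Type u} [Group Γ]
    (hΓ : ∀ h : Γ, ¬ IsOfFinOrder h → Slow.{u, v} Γ h) {k : ℕ}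
    (A : Matrix (Fin k) (Fin k) (MonoidAlgebra R Γ)) (hA : A * A = A) (g : Γ)
    (hg : ¬ IsUnit ((orderOf g : ℕ) : R)) :
    ∑ i : Fin k, ∑ᶠ (h : Γ) (_ : IsConj h g), (A i i).coeff h = 0 := by
  refine bass_slow.{u, v} (fun H _ h hh => ?_) A hA g hg
  refine Slow.comap H.subtype (hΓ _ fun hf => hh ?_)
  exact (Function.Injective.isOfFinOrder_iff (f := H.subtype) H.subtype_injective).1 hf

end bass

end Pool.Agent.W2helper35.LC
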